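import Pool.Agent.Helper64.DT.Stmts

/-! Diamond-free circle graphs (MP_866009_co): module TRB. -/

set_option autoImplicit false

namespace Pool.Agent.Helper64.DT

open Pool.Agent.Helper64.CT
open Pool.Agent.Helper64.HG (Ovl Model Circ IC HellyCircle ChordModel)
open Topology Filter

variable {V : Type}

/-- no position satisfies the three targets -/
def trb_N (l r : V → ℝ) (w : V → Bool) (b : V → V → Bool) (z y1 y2 y3 : V) : Prop :=
  ∀ t : ℝ, t ≠ l y1 → t ≠ r y1 → t ≠ l y2 → t ≠ r y2 → t ≠ l y3 → t ≠ r y3 →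
    ¬ ((InP l r y1 t ↔ b y1 z = w y1) ∧ (InP l r y2 t ↔ b y2 z = w y2) ∧
      (InP l r y3 t ↔ b y3 z = w y3))

theorem trb_p12 {l r : V → ℝ} {w : V → Bool} {b : V → V → Bool} {z y1 y2 y3 : V}
    (h : trb_N l r w b z y1 y2 y3) : trb_N l r w b z y2 y1 y3 :=
  fun t a1 a2 a3 a4 a5 a6 hh => h t a3 a4 a1 a2 a5 a6 ⟨hh.2.1, hh.1, hh.2.2⟩

theorem trb_p13 {l r : V → ℝ} {w : V → Bool} {b : V → V → Bool} {z y1 y2 y3 : V}
    (h : trb_N l r w b z y1 y2 y3) : trb_N l r w b z y3 y2 y1 :=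
  fun t a1 a2 a3 a4 a5 a6 hh => h t a5 a6 a3 a4 a1 a2 ⟨hh.2.2, hh.2.1, hh.1⟩

theorem trb_cross {G : SimpleGraph V} {T : Set V} {l r : V → ℝ} (M : MOn G T l r) {x y : V}
    (hx : x ∈ T) (hy : y ∈ T) (h : G.Adj y x) : InP l r y (l x) ↔ ¬ InP l r y (r x) := by
  have h1 := (M.adj y hy x hx).1 h
  unfold InP
  rcases h1 with ⟨a, b, c⟩ | ⟨a, b, c⟩
  · constructor
    · rintro _ ⟨_, h3⟩
      exact absurd h3 (not_lt.2 c.le)
    · intro _
      exact ⟨a, b⟩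
  · constructor
    · rintro ⟨h3, _⟩
      exact absurd h3 (not_lt.2 a.le)
    · intro h3
      exact absurd ⟨b, c⟩ h3

theorem trb_far {G : SimpleGraph V} {T : Set V} {l r : V → ℝ} (M : MOn G T l r) {x y : V}
    (hx : x ∈ T) (hy : y ∈ T) (h : x ∈ Far G y) : InP l r y (l x) ↔ InP l r y (r x) := by
  have h1 : ¬ Ovl l r y x := fun e => h.2 ((M.adj y hy x hx).2 e)
  have hlt := M.lt x hx
  have n1 : l x ≠ l y := fun e => h.1 (M.injl x hx y hy e)
  have n2 : r x ≠ r y := fun e => h.1 (M.injr x hx y hy e)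
  unfold InP
  constructor
  · rintro ⟨a, c⟩
    refine ⟨a.trans hlt, ?_⟩
    rcases lt_or_gt_of_ne n2 with e | e
    · exact e
    · exact absurd (Or.inl ⟨a, c, e⟩) h1
  · rintro ⟨a, c⟩
    refine ⟨?_, hlt.trans c⟩
    rcases lt_or_gt_of_ne n1 with e | e
    · exact absurd (Or.inr ⟨e, a, c⟩) h1
    · exact e

theorem trb_bm (l r : V → ℝ) (w : V → Bool) (y x : V) :
    bm l r w y x = w y ↔ InP l r y (tl l r w x) := by
  unfold bm
  split_ifs with h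
  · simp [h]
  · cases w y <;> simp [h]

/-- the other end -/
noncomputable def trb_hd (l r : V → ℝ) (w : V → Bool) (x : V) : ℝ :=
  if w x = true then r x else l x

theorem trb_tl (l r : V → ℝ) (w : V → Bool) (x : V) : tl l r w x = l x ∨ tl l r w x = r x := by
  unfold tl
  split_ifs
  · exact Or.inl rfl
  · exact Or.inr rfl

theorem trb_hd' (l r : V → ℝ) (w : V → Bool) (x : V) :
    trb_hd l r w x = l x ∨ trb_hd l r w x = r x := by
  unfold trb_hd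
  split_ifs
  · exact Or.inr rfl
  · exact Or.inl rfl

theorem trb_hdc {G : SimpleGraph V} {T : Set V} {l r : V → ℝ} (w : V → Bool) (M : MOn G T l r)
    {x y : V} (hx : x ∈ T) (hy : y ∈ T) (h : G.Adj y x) :
    InP l r y (trb_hd l r w x) ↔ ¬ InP l r y (tl l r w x) := by
  have h1 := trb_cross M hx hy h
  unfold trb_hd tl
  split_ifs
  · rw [h1, not_not]
  · exact h1

theorem trb_fare {G : SimpleGraph V} {T : Set V} {l r : V → ℝ} (w : V → Bool) (M : MOn G T l r)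
    {x y : V} (hx : x ∈ T) (hy : y ∈ T) (h : x ∈ Far G y) {e : ℝ} (he : e = l x ∨ e = r x) :
    InP l r y e ↔ InP l r y (tl l r w x) := by
  have h1 := trb_far M hx hy h
  rcases he with he | he <;> rcases trb_tl l r w x with h2 | h2 <;> rw [he, h2]
  · exact h1
  · exact h1.symm

theorem trb_ne {G : SimpleGraph V} {T : Set V} {l r : V → ℝ} (M : MOn G T l r) {x y : V}
    (hx : x ∈ T) (hy : y ∈ T) (h : x ≠ y) {e : ℝ} (he : e = l x ∨ e = r x) :
    e ≠ l y ∧ e ≠ r y := by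
  rcases he with rfl | rfl
  · exact ⟨fun e => h (M.injl x hx y hy e), M.ne x hx y hy⟩
  · exact ⟨fun e => M.ne y hy x hx e.symm, fun e => h (M.injr x hx y hy e)⟩

theorem trb_near {a e : ℝ} (h : e ≠ a) :
    ∀ᶠ t in 𝓝 e, t ≠ a ∧ (a < t ↔ a < e) ∧ (t < a ↔ e < a) := by
  rcases lt_or_gt_of_ne h with h | h
  · filter_upwards [gt_mem_nhds h] with t ht
    exact ⟨ne_of_lt ht, ⟨fun h' => absurd h' (not_lt.2 ht.le), fun h' => absurd h' (not_lt.2 h.le)⟩,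
      ⟨fun _ => h, fun _ => ht⟩⟩
  · filter_upwards [lt_mem_nhds h] with t ht
    exact ⟨ne_of_gt ht, ⟨fun _ => h, fun _ => ht⟩,
      ⟨fun h' => absurd h' (not_lt.2 ht.le), fun h' => absurd h' (not_lt.2 h.le)⟩⟩

theorem trb_two (P : ℝ → Prop) (e : ℝ) (h : ∀ᶠ t in 𝓝 e, P t) :
    (∃ t, t < e ∧ P t) ∧ ∃ t, e < t ∧ P t := by
  constructor
  · have h1 : ∀ᶠ t in 𝓝[<] e, P t := h.filter_mono nhdsWithin_le_nhds
    have h2 : ∀ᶠ t in 𝓝[<] e, t < e := self_mem_nhdsWithin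
    exact (h2.and h1).exists
  · have h1 : ∀ᶠ t in 𝓝[>] e, P t := h.filter_mono nhdsWithin_le_nhds
    have h2 : ∀ᶠ t in 𝓝[>] e, e < t := self_mem_nhdsWithin
    exact (h2.and h1).exists

/-- a position close to an end of `y1` with prescribed membership for `y1` -/
theorem trb_pos {G : SimpleGraph V} {T : Set V} {l r : V → ℝ} (M : MOn G T l r) {y1 y2 y3 : V}
    (h1 : y1 ∈ T) (h2 : y2 ∈ T) (h3 : y3 ∈ T) (n2 : y1 ≠ y2) (n3 : y1 ≠ y3) {e : ℝ}
    (he : e = l y1 ∨ e = r y1) (D : Prop) :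
    ∃ t : ℝ, t ≠ l y1 ∧ t ≠ r y1 ∧ t ≠ l y2 ∧ t ≠ r y2 ∧ t ≠ l y3 ∧ t ≠ r y3 ∧
      (InP l r y1 t ↔ D) ∧ (InP l r y2 t ↔ InP l r y2 e) ∧ (InP l r y3 t ↔ InP l r y3 e) := by
  obtain ⟨a1, a2⟩ := trb_ne M h1 h2 n2 he
  obtain ⟨a3, a4⟩ := trb_ne M h1 h3 n3 he
  have hlt := M.lt y1 h1
  have ev := (trb_near a1).and ((trb_near a2).and ((trb_near a3).and (trb_near a4)))
  unfold InP
  rcases he with rfl | rfl
  · obtain ⟨⟨t, ht, hb⟩, ⟨t', ht', hb'⟩⟩ := trb_two _ _ (ev.and (trb_near (ne_of_lt hlt)))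
    by_cases hD : D
    · obtain ⟨⟨b1, b2, b3, b4⟩, b5⟩ := hb'
      refine ⟨t', ne_of_gt ht', b5.1, b1.1, b2.1, b3.1, b4.1, ?_, ?_, ?_⟩
      · exact ⟨fun _ => hD, fun _ => ⟨ht', b5.2.2.2 hlt⟩⟩
      · rw [b1.2.1, b2.2.2]
      · rw [b3.2.1, b4.2.2]
    · obtain ⟨⟨b1, b2, b3, b4⟩, b5⟩ := hb
      refine ⟨t, ne_of_lt ht, b5.1, b1.1, b2.1, b3.1, b4.1, ?_, ?_, ?_⟩
      · exact ⟨fun h => absurd h.1 (not_lt.2 ht.le), fun h => absurd h hD⟩
      · rw [b1.2.1, b2.2.2]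
      · rw [b3.2.1, b4.2.2]
  · obtain ⟨⟨t, ht, hb⟩, ⟨t', ht', hb'⟩⟩ := trb_two _ _ (ev.and (trb_near (ne_of_gt hlt)))
    by_cases hD : D
    · obtain ⟨⟨b1, b2, b3, b4⟩, b5⟩ := hb
      refine ⟨t, b5.1, ne_of_lt ht, b1.1, b2.1, b3.1, b4.1, ?_, ?_, ?_⟩
      · exact ⟨fun _ => hD, fun _ => ⟨b5.2.1.2 hlt, ht⟩⟩
      · rw [b1.2.1, b2.2.2]
      · rw [b3.2.1, b4.2.2]
    · obtain ⟨⟨b1, b2, b3, b4⟩, b5⟩ := hb'
      refine ⟨t', b5.1, ne_of_gt ht', b1.1, b2.1, b3.1, b4.1, ?_, ?_, ?_⟩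
      · exact ⟨fun h => absurd h.2 (not_lt.2 ht'.le), fun h => absurd h hD⟩
      · rw [b1.2.1, b2.2.2]
      · rw [b3.2.1, b4.2.2]

/-- the second alternative of `SEC` is impossible if `z` is adjacent to all -/
theorem trb_all {G : SimpleGraph V} {b : V → V → Bool} (hb : NB G b) {i j k z : V}
    (hij : G.Adj i j) (hjk : G.Adj j k) (hik : G.Adj i k) (hi : G.Adj z i) (hj : G.Adj z j)
    (hk : G.Adj z k) (e1 : b i j = b j z) (e2 : b i z ≠ b j z) (e3 : b i k = b j k)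
    (e4 : b i k ≠ b k z) : False := by
  have m1 := hb.n1 i j hij
  have m2 := hb.n1 z i hi
  have m3 := hb.n1 z j hj
  have m4 := hb.n1 z k hk
  have c1 := hb.n5 i j z k hij hj.symm hi hik.symm hjk.symm hk.symm
  have c2 := hb.n5 j i z k hij.symm hi.symm hj hjk.symm hik.symm hk.symm
  revert c1 c2 m1 m2 m3 m4 e1 e2 e3 e4
  cases b i j <;> cases b j z <;> cases b i z <;> cases b i k <;> cases b j k <;>
    cases b k z <;> cases b j i <;> cases b z i <;> cases b z j <;> cases b z k <;> simp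

/-- exactly one of the three is adjacent to `z` -/
theorem trb_one {G : SimpleGraph V} {b : V → V → Bool} {T : Set V} {z : V} {l r : V → ℝ}
    {w : V → Bool} (hb : NB G b) (hz : z ∉ T) (M : MOn G T l r) (R : RB T l r w b)
    {y1 y2 y3 : V} (h1 : y1 ∈ T) (h2 : y2 ∈ T) (h3 : y3 ∈ T) (h12 : G.Adj y1 y2)
    (h23 : G.Adj y2 y3) (h31 : G.Adj y3 y1) (hN : trb_N l r w b z y1 y2 y3) (z1 : G.Adj z y1)
    (z2 : ¬ G.Adj z y2) (z3 : ¬ G.Adj z y3) : False := by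
  have zn2 : y2 ≠ z := fun e => hz (e ▸ h2)
  have zn3 : y3 ≠ z := fun e => hz (e ▸ h3)
  have m1 := hb.n2 z y2 y3 ⟨zn2, z2⟩ ⟨zn3, z3⟩ h23
  have m2 := hb.n3 y1 y2 z h12 z1.symm zn2 (fun e => z2 e.symm)
  have m3 := hb.n3 y1 y3 z h31.symm z1.symm zn3 (fun e => z3 e.symm)
  have m4 := hb.n1 y1 y2 h12
  have m5 := hb.n1 y3 y1 h31
  have k2 : b y2 y1 = w y2 ↔ InP l r y2 (tl l r w y1) := by
    rw [R y2 h2 y1 h1 h12.ne]
    exact trb_bm l r w y2 y1
  have k3 : b y3 y1 = w y3 ↔ InP l r y3 (tl l r w y1) := by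
    rw [R y3 h3 y1 h1 h31.ne.symm]
    exact trb_bm l r w y3 y1
  have c2 := trb_hdc w M h1 h2 h12.symm
  have c3 := trb_hdc w M h1 h3 h31
  have hor : (b y2 z = b y2 y1 ∧ b y3 z = b y3 y1) ∨ (b y2 z ≠ b y2 y1 ∧ b y3 z ≠ b y3 y1) := by
    revert m1 m2 m3 m4 m5
    cases b z y2 <;> cases b z y3 <;> cases b y2 z <;> cases b y3 z <;> cases b y1 y2 <;>
      cases b y2 y1 <;> cases b y3 y1 <;> cases b y1 y3 <;> cases b y1 z <;> simp
  rcases hor with ⟨q2, q3⟩ | ⟨q2, q3⟩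
  · obtain ⟨t, t1, t2, t3, t4, t5, t6, t7, t8, t9⟩ :=
      trb_pos M h1 h2 h3 h12.ne h31.ne.symm (trb_tl l r w y1) (b y1 z = w y1)
    apply hN t t1 t2 t3 t4 t5 t6
    refine ⟨t7, ?_, ?_⟩
    · rw [t8, ← k2, q2]
    · rw [t9, ← k3, q3]
  · obtain ⟨t, t1, t2, t3, t4, t5, t6, t7, t8, t9⟩ :=
      trb_pos M h1 h2 h3 h12.ne h31.ne.symm (trb_hd' l r w y1) (b y1 z = w y1)
    apply hN t t1 t2 t3 t4 t5 t6
    refine ⟨t7, ?_, ?_⟩
    · rw [t8, c2, ← k2]
      revert q2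
      cases b y2 z <;> cases b y2 y1 <;> cases w y2 <;> simp
    · rw [t9, c3, ← k3]
      revert q3
      cases b y3 z <;> cases b y3 y1 <;> cases w y3 <;> simp

/-- `z` is adjacent to none of the three and `p` exactly to one -/
theorem trb_pone {G : SimpleGraph V} {b : V → V → Bool} {T : Set V} {z : V} {l r : V → ℝ}
    {w : V → Bool} (hb : NB G b) (hz : z ∉ T) (M : MOn G T l r) (R : RB T l r w b)
    {y1 y2 y3 p : V} (h1 : y1 ∈ T) (h2 : y2 ∈ T) (h3 : y3 ∈ T) (hp : p ∈ T)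
    (hN : trb_N l r w b z y1 y2 y3)
    (z2 : ¬ G.Adj z y2) (z3 : ¬ G.Adj z y3) (zp : G.Adj z p)
    (p1 : G.Adj p y1) (p2 : p ∈ Far G y2) (p3 : p ∈ Far G y3) : False := by
  have zn2 : z ≠ y2 := fun e => hz (e ▸ h2)
  have zn3 : z ≠ y3 := fun e => hz (e ▸ h3)
  have m2 := hb.n2 y2 p z p2 ⟨zn2, fun e => z2 e.symm⟩ zp.symm
  have m3 := hb.n2 y3 p z p3 ⟨zn3, fun e => z3 e.symm⟩ zp.symm
  have k2 : b y2 p = w y2 ↔ InP l r y2 (tl l r w p) := by
    rw [R y2 h2 p hp p2.1]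
    exact trb_bm l r w y2 p
  have k3 : b y3 p = w y3 ↔ InP l r y3 (tl l r w p) := by
    rw [R y3 h3 p hp p3.1]
    exact trb_bm l r w y3 p
  have c1 := trb_cross M hp h1 p1.symm
  obtain ⟨e, he, heq⟩ : ∃ e : ℝ, (e = l p ∨ e = r p) ∧ (InP l r y1 e ↔ b y1 z = w y1) := by
    by_cases hD : b y1 z = w y1
    · by_cases hI : InP l r y1 (l p)
      · exact ⟨l p, Or.inl rfl, ⟨fun _ => hD, fun _ => hI⟩⟩
      · exact ⟨r p, Or.inr rfl, ⟨fun _ => hD, fun _ => by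
          by_contra h
          exact hI (c1.2 h)⟩⟩
    · by_cases hI : InP l r y1 (l p)
      · exact ⟨r p, Or.inr rfl, ⟨fun h => absurd h (c1.1 hI), fun h => absurd h hD⟩⟩
      · exact ⟨l p, Or.inl rfl, ⟨fun h => absurd h hI, fun h => absurd h hD⟩⟩
  obtain ⟨a1, a2⟩ := trb_ne M hp h1 p1.ne he
  obtain ⟨a3, a4⟩ := trb_ne M hp h2 p2.1 he
  obtain ⟨a5, a6⟩ := trb_ne M hp h3 p3.1 he
  apply hN e a1 a2 a3 a4 a5 a6
  refine ⟨heq, ?_, ?_⟩
  · rw [trb_fare w M hp h2 p2 he, ← k2, m2]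
  · rw [trb_fare w M hp h3 p3 he, ← k3, m3]

theorem trb_none {G : SimpleGraph V} {b : V → V → Bool} {T : Set V} {z : V} {l r : V → ℝ}
    {w : V → Bool} (hdf : DF G) (hb : NB G b) (hz : z ∉ T) (M : MOn G T l r) (R : RB T l r w b)
    {y1 y2 y3 p : V} (h1 : y1 ∈ T) (h2 : y2 ∈ T) (h3 : y3 ∈ T) (hp : p ∈ T) (h12 : G.Adj y1 y2)
    (h23 : G.Adj y2 y3) (h31 : G.Adj y3 y1) (hN : trb_N l r w b z y1 y2 y3)
    (z1 : ¬ G.Adj z y1) (z2 : ¬ G.Adj z y2) (z3 : ¬ G.Adj z y3) (zp : G.Adj z p) : False := by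
  have zn1 : y1 ≠ z := fun e => hz (e ▸ h1)
  have zn2 : y2 ≠ z := fun e => hz (e ▸ h2)
  have zn3 : y3 ≠ z := fun e => hz (e ▸ h3)
  have pn1 : p ≠ y1 := fun e => z1 (e ▸ zp)
  have pn2 : p ≠ y2 := fun e => z2 (e ▸ zp)
  have pn3 : p ≠ y3 := fun e => z3 (e ▸ zp)
  have k1 : b y1 p = w y1 ↔ InP l r y1 (tl l r w p) := by
    rw [R y1 h1 p hp pn1]
    exact trb_bm l r w y1 p
  have k2 : b y2 p = w y2 ↔ InP l r y2 (tl l r w p) := by
    rw [R y2 h2 p hp pn2]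
    exact trb_bm l r w y2 p
  have k3 : b y3 p = w y3 ↔ InP l r y3 (tl l r w p) := by
    rw [R y3 h3 p hp pn3]
    exact trb_bm l r w y3 p
  -- two neighbours of `p` among the `y i` give the third
  have t12 : G.Adj p y1 → G.Adj p y2 → G.Adj p y3 := fun a c =>
    (hdf y1 y2 y3 p h12 h31.symm h23 a.symm c.symm pn3.symm).symm
  have t23 : G.Adj p y2 → G.Adj p y3 → G.Adj p y1 := fun a c =>
    (hdf y2 y3 y1 p h23 h12.symm h31 a.symm c.symm pn1.symm).symm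
  have t31 : G.Adj p y3 → G.Adj p y1 → G.Adj p y2 := fun a c =>
    (hdf y3 y1 y2 p h31 h23.symm h12 a.symm c.symm pn2.symm).symm
  have far : ∀ y, p ≠ y → ¬ G.Adj p y → p ∈ Far G y := fun y h h' => ⟨h, fun e => h' e.symm⟩
  by_cases p1 : G.Adj p y1
  · by_cases p2 : G.Adj p y2
    · -- all
      have p3 := t12 p1 p2
      have m1 := hb.n2 z y1 y2 ⟨zn1, z1⟩ ⟨zn2, z2⟩ h12
      have m2 := hb.n2 z y2 y3 ⟨zn2, z2⟩ ⟨zn3, z3⟩ h23
      have g1 := hb.n3 p z y1 zp.symm p1 zn1.symm z1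
      have g2 := hb.n3 p z y2 zp.symm p2 zn2.symm z2
      have g3 := hb.n3 p z y3 zp.symm p3 zn3.symm z3
      have q1 := hb.n1 p y1 p1
      have q2 := hb.n1 p y2 p2
      have q3 := hb.n1 p y3 p3
      have hor : (b y1 z = b y1 p ∧ b y2 z = b y2 p ∧ b y3 z = b y3 p) ∨
          (b y1 z ≠ b y1 p ∧ b y2 z ≠ b y2 p ∧ b y3 z ≠ b y3 p) := by
        revert m1 m2 g1 g2 g3 q1 q2 q3
        generalize b z y1 = a1
        generalize b z y2 = a2
        generalize b z y3 = a3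
        generalize b y1 z = a4
        generalize b y2 z = a5
        generalize b y3 z = a6
        generalize b p y1 = a7
        generalize b p y2 = a8
        generalize b p y3 = a9
        generalize b y1 p = c1
        generalize b y2 p = c2
        generalize b y3 p = c3
        generalize b p z = c4
        intro m1 m2 g1 g2 g3 q1 q2 q3
        subst m1 m2
        have e1 : a7 = !c1 := by revert q1; cases a7 <;> cases c1 <;> simp
        have e2 : a8 = !c2 := by revert q2; cases a8 <;> cases c2 <;> simp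
        have e3 : a9 = !c3 := by revert q3; cases a9 <;> cases c3 <;> simp
        subst e1 e2 e3
        have f1 : a4 = xor (xor a1 c4) c1 := by
          revert g1; cases a1 <;> cases a4 <;> cases c4 <;> cases c1 <;> simp
        have f2 : a5 = xor (xor a1 c4) c2 := by
          revert g2; cases a1 <;> cases a5 <;> cases c4 <;> cases c2 <;> simp
        have f3 : a6 = xor (xor a1 c4) c3 := by
          revert g3; cases a1 <;> cases a6 <;> cases c4 <;> cases c3 <;> simp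
        rw [f1, f2, f3]
        cases xor a1 c4 <;> cases c1 <;> cases c2 <;> cases c3 <;> simp
      rcases hor with ⟨r1, r2, r3⟩ | ⟨r1, r2, r3⟩
      · obtain ⟨a1, a2⟩ := trb_ne M hp h1 pn1 (trb_tl l r w p)
        obtain ⟨a3, a4⟩ := trb_ne M hp h2 pn2 (trb_tl l r w p)
        obtain ⟨a5, a6⟩ := trb_ne M hp h3 pn3 (trb_tl l r w p)
        apply hN _ a1 a2 a3 a4 a5 a6
        refine ⟨?_, ?_, ?_⟩
        · rw [← k1, r1]
        · rw [← k2, r2]
        · rw [← k3, r3]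
      · obtain ⟨a1, a2⟩ := trb_ne M hp h1 pn1 (trb_hd' l r w p)
        obtain ⟨a3, a4⟩ := trb_ne M hp h2 pn2 (trb_hd' l r w p)
        obtain ⟨a5, a6⟩ := trb_ne M hp h3 pn3 (trb_hd' l r w p)
        apply hN _ a1 a2 a3 a4 a5 a6
        refine ⟨?_, ?_, ?_⟩
        · rw [trb_hdc w M hp h1 p1.symm, ← k1]
          revert r1
          cases b y1 z <;> cases b y1 p <;> cases w y1 <;> simp
        · rw [trb_hdc w M hp h2 p2.symm, ← k2]
          revert r2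
          cases b y2 z <;> cases b y2 p <;> cases w y2 <;> simp
        · rw [trb_hdc w M hp h3 p3.symm, ← k3]
          revert r3
          cases b y3 z <;> cases b y3 p <;> cases w y3 <;> simp
    · have p3 : ¬ G.Adj p y3 := fun h => p2 (t31 h p1)
      exact trb_pone hb hz M R h1 h2 h3 hp hN z2 z3 zp p1 (far y2 pn2 p2) (far y3 pn3 p3)
  · by_cases p2 : G.Adj p y2
    · have p3 : ¬ G.Adj p y3 := fun h => p1 (t23 p2 h)
      exact trb_pone hb hz M R h2 h1 h3 hp (trb_p12 hN) z1 z3 zp p2 (far y1 pn1 p1)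
        (far y3 pn3 p3)
    · by_cases p3 : G.Adj p y3
      · exact trb_pone hb hz M R h3 h2 h1 hp (trb_p13 hN) z2 z1 zp p3 (far y2 pn2 p2)
          (far y1 pn1 p1)
      · have m1 := hb.n2 y1 p z (far y1 pn1 p1) ⟨zn1.symm, fun e => z1 e.symm⟩ zp.symm
        have m2 := hb.n2 y2 p z (far y2 pn2 p2) ⟨zn2.symm, fun e => z2 e.symm⟩ zp.symm
        have m3 := hb.n2 y3 p z (far y3 pn3 p3) ⟨zn3.symm, fun e => z3 e.symm⟩ zp.symm
        obtain ⟨a1, a2⟩ := trb_ne M hp h1 pn1 (trb_tl l r w p)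
        obtain ⟨a3, a4⟩ := trb_ne M hp h2 pn2 (trb_tl l r w p)
        obtain ⟨a5, a6⟩ := trb_ne M hp h3 pn3 (trb_tl l r w p)
        apply hN _ a1 a2 a3 a4 a5 a6
        refine ⟨?_, ?_, ?_⟩
        · rw [← k1, m1]
        · rw [← k2, m2]
        · rw [← k3, m3]

theorem st_TRB (_h1 : ST_GB1) (_h2 : ST_GB2) (h3 : ST_SEC) : ST_TRB := by
  intro V G b T z l r w hdf hb hz M R ⟨p, hp, zp⟩ y1 hy1 y2 hy2 y3 hy3 h12 h23 h31 hN
  have hN' : trb_N l r w b z y1 y2 y3 := hN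
  have zn1 : y1 ≠ z := fun e => hz (e ▸ hy1)
  have zn2 : y2 ≠ z := fun e => hz (e ▸ hy2)
  have zn3 : y3 ≠ z := fun e => hz (e ▸ hy3)
  have t12 : G.Adj z y1 → G.Adj z y2 → G.Adj z y3 := fun a c =>
    (hdf y1 y2 y3 z h12 h31.symm h23 a.symm c.symm zn3).symm
  have t23 : G.Adj z y2 → G.Adj z y3 → G.Adj z y1 := fun a c =>
    (hdf y2 y3 y1 z h23 h12.symm h31 a.symm c.symm zn1).symm
  have t31 : G.Adj z y3 → G.Adj z y1 → G.Adj z y2 := fun a c =>
    (hdf y3 y1 y2 z h31 h23.symm h12 a.symm c.symm zn2).symm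
  by_cases z1 : G.Adj z y1
  · by_cases z2 : G.Adj z y2
    · have z3 := t12 z1 z2
      have e12 := R y1 hy1 y2 hy2 h12.ne.symm
      have e21 := R y2 hy2 y1 hy1 h12.ne
      have e23 := R y2 hy2 y3 hy3 h23.ne.symm
      have e32 := R y3 hy3 y2 hy2 h23.ne
      have e31 := R y3 hy3 y1 hy1 h31.ne.symm
      have e13 := R y1 hy1 y3 hy3 h31.ne
      rcases h3 V G T l r w (fun y => b y z) M y1 hy1 y2 hy2 y3 hy3 h12 h23 h31 hN with
        ⟨q1, q2, q3, q4⟩ | ⟨i, j, k, hc, q1, q2, q3, q4⟩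
      · rw [← e12, ← e23] at q1
        rw [← e23, ← e31] at q2
        have m12 := hb.n1 y1 y2 h12
        have m23 := hb.n1 y2 y3 h23
        have m31 := hb.n1 y3 y1 h31
        have c1 := hb.n5 y1 y2 y3 z h12 h23 h31 z1 z2 z3
        have c2 := hb.n5 y2 y1 y3 z h12.symm h31.symm h23.symm z2 z1 z3
        have c1' : ¬ (b y1 y2 = true ∧ b y2 y3 = true ∧ b y3 y1 = true) :=
          fun h => c1 h.1 h.2.1 h.2.2 ⟨q3, q4⟩
        have c2' : ¬ (b y2 y1 = true ∧ b y1 y3 = true ∧ b y3 y2 = true) :=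
          fun h => c2 h.1 h.2.1 h.2.2 ⟨q3.symm, q3.trans q4⟩
        revert q1 q2 m12 m23 m31 c1' c2'
        clear c1 c2 e12 e21 e23 e32 e31 e13
        cases b y1 y2 <;> cases b y2 y3 <;> cases b y3 y1 <;> cases b y2 y1 <;>
          cases b y3 y2 <;> cases b y1 y3 <;> simp
      · rcases hc with ⟨rfl, rfl, rfl⟩ | ⟨rfl, rfl, rfl⟩ | ⟨rfl, rfl, rfl⟩ | ⟨rfl, rfl, rfl⟩ |
          ⟨rfl, rfl, rfl⟩ | ⟨rfl, rfl, rfl⟩
        · rw [← e12] at q1
          rw [← e13, ← e23] at q3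
          rw [← e13] at q4
          exact trb_all hb h12 h23 h31.symm z1 z2 z3 q1 q2 q3 q4
        · rw [← e13] at q1
          rw [← e12, ← e32] at q3
          rw [← e12] at q4
          exact trb_all hb h31.symm h23.symm h12 z1 z3 z2 q1 q2 q3 q4
        · rw [← e21] at q1
          rw [← e23, ← e13] at q3
          rw [← e23] at q4
          exact trb_all hb h12.symm h31.symm h23 z2 z1 z3 q1 q2 q3 q4
        · rw [← e23] at q1
          rw [← e21, ← e31] at q3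
          rw [← e21] at q4
          exact trb_all hb h23 h31 h12.symm z2 z3 z1 q1 q2 q3 q4
        · rw [← e31] at q1
          rw [← e32, ← e12] at q3
          rw [← e32] at q4
          exact trb_all hb h31 h12 h23.symm z3 z1 z2 q1 q2 q3 q4
        · rw [← e32] at q1
          rw [← e31, ← e21] at q3
          rw [← e31] at q4
          exact trb_all hb h23.symm h12.symm h31 z3 z2 z1 q1 q2 q3 q4
    · have z3 : ¬ G.Adj z y3 := fun h => z2 (t31 h z1)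
      exact trb_one hb hz M R hy1 hy2 hy3 h12 h23 h31 hN' z1 z2 z3
  · by_cases z2 : G.Adj z y2
    · have z3 : ¬ G.Adj z y3 := fun h => z1 (t23 z2 h)
      exact trb_one hb hz M R hy2 hy1 hy3 h12.symm h31.symm h23.symm (trb_p12 hN') z2 z1 z3
    · by_cases z3 : G.Adj z y3
      · exact trb_one hb hz M R hy3 hy2 hy1 h23.symm h12.symm h31.symm (trb_p13 hN') z3 z2 z1
      · exact trb_none hdf hb hz M R hy1 hy2 hy3 hp h12 h23 h31 hN' z1 z2 z3 zp

end Pool.Agent.Helper64.DT
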